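import Mathlib
import Pool.Agent.Helper5.RV.Level

/-!
# Two-way conversations: frame

Alice knows `u`, Bob knows `y`; both add a real number to the vote at the end. The planted cell
`k` of `u : K → R` gets the value `π j (y (j, k))`.
-/

set_option autoImplicit false

namespace Pool.Agent.Helper53.R4

open Finset Pool.Agent.Helper5.RV

/-- `TC a b F`: the value `F u y` is the sum of the two votes at the end of a conversation in
which Alice (who knows `u`) says at most `a` bits and Bob (who knows `y`) at most `b` bits. -/
inductive TC {U Y : Type} : ℕ → ℕ → (U → Y → ℝ) → Prop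
  | vote {a b : ℕ} (v : U → ℝ) (t : Y → ℝ) : TC a b fun u y => v u + t y
  | alice {a b : ℕ} (p : U → Bool) (F : Bool → U → Y → ℝ) (h : ∀ i, TC a b (F i)) :
      TC (a + 1) b fun u y => F (p u) u y
  | bob {a b : ℕ} (p : Y → Bool) (F : Bool → U → Y → ℝ) (h : ∀ i, TC a b (F i)) :
      TC a (b + 1) fun u y => F (p y) u y

/-- the probability of `Z` -/
noncomputable def prob {U Y : Type} [Fintype U] [Fintype Y] (Z : U → Y → Prop) : ℝ :=
  (∑ u, ∑ y, ind (Z u y)) / (Fintype.card U * Fintype.card Y)

variable {J K R M : Type} [Fintype J] [DecidableEq J] [Fintype K] [DecidableEq K] [Fintype R]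
  [Fintype M]

/-- the probability of `Z` if a random cell of `u` gets the planted value -/
noncomputable def planted (π : J → M → R) (Z : (K → R) → (J × K → M) → Prop) : ℝ :=
  (∑ u : K → R, ∑ y : J × K → M, ∑ p : J × K, ind (Z (Function.update u p.2 (π p.1 (y p))) y)) /
    (Fintype.card (K → R) * Fintype.card (J × K → M) * (Fintype.card J * Fintype.card K))

/-- the density of a set -/
noncomputable def dens {U : Type} [Fintype U] (S : Finset U) : ℝ := (S.card : ℝ) / Fintype.card U

/-- planting does not make a rectangle much less probable -/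
def RectGood (J K : Type) [Fintype J] [DecidableEq J] [Fintype K] [DecidableEq K] {R M : Type}
    [Fintype R] [Fintype M] (π : J → M → R) (e0 c1 c2 : ℝ) : Prop :=
  ∀ (S : Finset (K → R)) (T : Finset (J × K → M)), S.Nonempty → T.Nonempty →
    dens S * dens T * (1 - e0 - c1 * Real.log (1 / dens S) - c2 * Real.log (1 / dens T)) ≤
      planted π (fun u y => u ∈ S ∧ y ∈ T)

end Pool.Agent.Helper53.R4
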