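import Mathlib
import Pool.Agent.Helper53.R4.Frame
import Pool.Agent.Helper53.RV.Bes

/-!
# The marginals of a set, and the inequality of Gibbs
-/

set_option autoImplicit false

namespace Pool.Agent.Helper53.R4

open Finset Pool.Agent.Helper5.RV

variable {K R : Type} [Fintype K] [DecidableEq K] [Fintype R]

/-- the density of the marginal `k` of the uniform law on `S` -/
noncomputable def marg (S : Finset (K → R)) (k : K) (z : R) : ℝ :=
  (∑ u : K → R, ind (u ∈ S ∧ u k = z)) * Fintype.card R / S.card

/-- the entropy function -/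
noncomputable def hh (t : ℝ) : ℝ := t * Real.log t - t + 1

/-- `(1 - t)` if this is positive -/
noncomputable def gg (t : ℝ) : ℝ := max 0 (1 - t)

/-- the mean of `hh` over the marginal -/
noncomputable def kl (S : Finset (K → R)) (k : K) : ℝ := (∑ z, hh (marg S k z)) / Fintype.card R

theorem gg_nonneg (t : ℝ) : 0 ≤ gg t := le_max_left _ _

theorem gg_le_one {t : ℝ} (ht : 0 ≤ t) : gg t ≤ 1 := max_le (by norm_num) (by linarith)

theorem one_sub_gg_le (t : ℝ) : 1 - gg t ≤ t := by
  have := le_max_right 0 (1 - t)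
  unfold gg
  linarith

theorem hh_sqrt {t : ℝ} (ht : 0 ≤ t) : (1 - √t) ^ 2 ≤ hh t := by
  rcases ht.eq_or_lt with h | h
  · rw [← h]
    simp [hh]
  · have hs : 0 < √t := Real.sqrt_pos.2 h
    have h1 := Real.one_sub_inv_le_log_of_pos hs
    have h2 : Real.log (√t) = Real.log t / 2 := Real.log_sqrt h.le
    rw [h2] at h1
    have h3 : t * (√t)⁻¹ = √t := by
      rw [mul_inv_eq_iff_eq_mul₀ hs.ne', Real.mul_self_sqrt h.le]
    have h4 : √t ^ 2 = t := Real.sq_sqrt h.le
    have h5 : t * (2 * (1 - (√t)⁻¹)) ≤ t * Real.log t := mul_le_mul_of_nonneg_left (by linarith) h.le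
    unfold hh
    nlinarith

theorem hh_nonneg {t : ℝ} (ht : 0 ≤ t) : 0 ≤ hh t := (sq_nonneg _).trans (hh_sqrt ht)

theorem gg_sq_le {t : ℝ} (ht : 0 ≤ t) : gg t ^ 2 ≤ 4 * hh t := by
  have h0 := hh_sqrt ht
  by_cases h1 : t ≤ 1
  · have hg : gg t = 1 - t := max_eq_right (by linarith)
    have hs0 := Real.sqrt_nonneg t
    have hs1 : √t ≤ 1 := Real.sqrt_le_one.2 h1
    have h4 : √t ^ 2 = t := Real.sq_sqrt ht
    rw [hg]
    have h5 : 1 - t = (1 - √t) * (1 + √t) := by
      have e : (1 - √t) * (1 + √t) = 1 - √t ^ 2 := by ring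
      rw [e, h4]
    have h6 : (1 - t) ^ 2 ≤ 4 * (1 - √t) ^ 2 := by
      rw [h5, mul_pow]
      nlinarith [sq_nonneg (1 - √t)]
    linarith
  · have hg : gg t = 0 := max_eq_left (by linarith)
    rw [hg]
    have := hh_nonneg ht
    linarith

theorem hh_big {t L : ℝ} (hL : 0 < L) (h : L < t) : t * (Real.log L - 1) ≤ hh t := by
  have h1 : Real.log L ≤ Real.log t := Real.log_le_log hL h.le
  unfold hh
  nlinarith

theorem marg_nonneg (S : Finset (K → R)) (k : K) (z : R) : 0 ≤ marg S k z :=
  div_nonneg (mul_nonneg (sum_nonneg fun _ _ => ind_nonneg _) (Nat.cast_nonneg _)) (Nat.cast_nonneg _)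

omit [DecidableEq K] in
theorem ind_and_eq (S : Finset (K → R)) (k : K) (u : K → R) :
    ∑ z, ind (u ∈ S ∧ u k = z) = ind (u ∈ S) := by
  classical
  rw [sum_eq_single (u k)]
  · by_cases h : u ∈ S
    · rw [ind_of ⟨h, rfl⟩, ind_of h]
    · rw [ind_of_not fun h' => h h'.1, ind_of_not h]
  · intro z _ hz
    exact ind_of_not fun h => hz h.2.symm
  · intro h
    exact absurd (mem_univ _) h

theorem sum_ind_mem (S : Finset (K → R)) : ∑ u : K → R, ind (u ∈ S) = S.card := by
  classical
  have e : ∀ u : K → R, ind (u ∈ S) = if u ∈ S then 1 else 0 := by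
    intro u
    by_cases h : u ∈ S
    · rw [ind_of h, if_pos h]
    · rw [ind_of_not h, if_neg h]
  simp_rw [e]
  rw [sum_ite_mem, univ_inter, sum_const, nsmul_eq_mul, mul_one]

theorem sum_marg (S : Finset (K → R)) (hS : S.Nonempty) (k : K) :
    ∑ z, marg S k z = Fintype.card R := by
  have h0 : (S.card : ℝ) ≠ 0 := by exact_mod_cast hS.card_pos.ne'
  unfold marg
  rw [← sum_div, ← sum_mul, sum_comm]
  simp_rw [ind_and_eq]
  rw [sum_ind_mem]
  field_simp

/-- the probability of `S` with a given value in the cell `k` -/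
theorem sum_update_mem (S : Finset (K → R)) (hS : S.Nonempty) (k : K) (z : R) :
    ∑ u : K → R, ind (Function.update u k z ∈ S) = S.card * marg S k z := by
  have h0 : (S.card : ℝ) ≠ 0 := by exact_mod_cast hS.card_pos.ne'
  have h1 := Pool.Agent.Helper53.RV.sum_cell k (fun u : K → R => ind (u ∈ S ∧ u k = z))
  have h2 : ∀ u : K → R, ∑ v, ind (Function.update u k v ∈ S ∧ Function.update u k v k = z) =
      ind (Function.update u k z ∈ S) := by
    intro u
    rw [sum_eq_single z]
    · simp only [Function.update_self, and_true]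
    · intro v _ hv
      refine ind_of_not fun h => hv ?_
      rw [Function.update_self] at h
      exact h.2
    · intro h
      exact absurd (mem_univ _) h
  simp_rw [h2] at h1
  rw [h1]
  unfold marg
  field_simp

/-- Subadditivity of the entropy. -/
theorem sum_kl [Nonempty R] (S : Finset (K → R)) (hS : S.Nonempty) :
    ∑ k, kl S k ≤ Real.log (1 / dens S) := by
  classical
  have hc0 : (0 : ℝ) < S.card := by exact_mod_cast hS.card_pos
  have hR0 : (0 : ℝ) < Fintype.card R := by exact_mod_cast Fintype.card_pos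
  have hU0 : (0 : ℝ) < Fintype.card (K → R) := by exact_mod_cast Fintype.card_pos
  have hd0 : 0 < dens S := div_pos hc0 hU0
  have hpos : ∀ u ∈ S, ∀ k, 0 < marg S k (u k) := by
    intro u hu k
    refine div_pos (mul_pos ?_ hR0) hc0
    refine lt_of_lt_of_le one_pos ?_
    rw [← ind_of (show u ∈ S ∧ u k = u k from ⟨hu, rfl⟩)]
    exact single_le_sum (f := fun u' : K → R => ind (u' ∈ S ∧ u' k = u k)) (fun _ _ => ind_nonneg _)
      (mem_univ u)
  have h1 : ∀ u ∈ S, Real.log (dens S) + ∑ k, Real.log (marg S k (u k)) ≤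
      dens S * ∏ k, marg S k (u k) - 1 := by
    intro u hu
    rw [← Real.log_prod fun k _ => (hpos u hu k).ne', ← Real.log_mul hd0.ne'
      (prod_pos fun k _ => hpos u hu k).ne']
    exact Real.log_le_sub_one_of_pos (mul_pos hd0 (prod_pos fun k _ => hpos u hu k))
  have h2 := sum_le_sum h1
  rw [sum_add_distrib, sum_const, nsmul_eq_mul, sum_sub_distrib, sum_const, nsmul_eq_mul, mul_one,
    ← mul_sum] at h2
  have h3 : ∑ u ∈ S, ∏ k, marg S k (u k) ≤ (Fintype.card (K → R) : ℝ) := by
    calc ∑ u ∈ S, ∏ k, marg S k (u k) ≤ ∑ u : K → R, ∏ k, marg S k (u k) :=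
          sum_le_sum_of_subset_of_nonneg (subset_univ _) fun u _ _ =>
            prod_nonneg fun k _ => marg_nonneg S k _
      _ = ∏ k : K, ∑ z : R, marg S k z := by rw [Fintype.prod_sum]
      _ = Fintype.card (K → R) := by
          simp_rw [sum_marg S hS]
          rw [prod_const, card_univ, Fintype.card_fun]
          push_cast
          rfl
  have h4 : dens S * ∑ u ∈ S, ∏ k, marg S k (u k) ≤ S.card := by
    calc dens S * ∑ u ∈ S, ∏ k, marg S k (u k) ≤ dens S * Fintype.card (K → R) :=
          mul_le_mul_of_nonneg_left h3 hd0.le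
      _ = S.card := by unfold dens; field_simp
  have h5 : ∑ u ∈ S, ∑ k, Real.log (marg S k (u k)) ≤ S.card * Real.log (1 / dens S) := by
    rw [one_div, Real.log_inv]
    linarith
  have h6 : ∑ u ∈ S, ∑ k, Real.log (marg S k (u k)) = S.card * ∑ k, kl S k := by
    rw [sum_comm, mul_sum]
    refine sum_congr rfl fun k _ => ?_
    have e1 : ∑ u ∈ S, Real.log (marg S k (u k)) =
        ∑ u : K → R, ∑ z, ind (u ∈ S ∧ u k = z) * Real.log (marg S k z) := by
      have e2 : ∀ u : K → R, ∑ z, ind (u ∈ S ∧ u k = z) * Real.log (marg S k z) =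
          ind (u ∈ S) * Real.log (marg S k (u k)) := by
        intro u
        rw [sum_eq_single (u k)]
        · congr 1
          by_cases h : u ∈ S
          · rw [ind_of ⟨h, rfl⟩, ind_of h]
          · rw [ind_of_not fun h' => h h'.1, ind_of_not h]
        · intro z _ hz
          rw [ind_of_not fun h => hz h.2.symm, zero_mul]
        · intro h
          exact absurd (mem_univ _) h
      simp_rw [e2]
      have e3 : ∀ u : K → R, ind (u ∈ S) * Real.log (marg S k (u k)) =
          if u ∈ S then Real.log (marg S k (u k)) else 0 := by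
        intro u
        by_cases h : u ∈ S
        · rw [ind_of h, if_pos h, one_mul]
        · rw [ind_of_not h, if_neg h, zero_mul]
      simp_rw [e3]
      rw [sum_ite_mem, univ_inter]
    rw [e1, sum_comm]
    have e4 : ∀ z, ∑ u : K → R, ind (u ∈ S ∧ u k = z) * Real.log (marg S k z) =
        S.card / Fintype.card R * (marg S k z * Real.log (marg S k z)) := by
      intro z
      rw [← sum_mul]
      have e5 : ∑ u : K → R, ind (u ∈ S ∧ u k = z) = S.card / Fintype.card R * marg S k z := by
        unfold marg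
        field_simp
      rw [e5]
      ring
    simp_rw [e4]
    rw [← mul_sum]
    have e6 : ∑ z, hh (marg S k z) = ∑ z, marg S k z * Real.log (marg S k z) := by
      unfold hh
      rw [sum_add_distrib, sum_sub_distrib, sum_marg S hS, sum_const, card_univ, nsmul_eq_mul]
      ring
    rw [kl, e6]
    ring
  rw [h6] at h5
  exact le_of_mul_le_mul_left h5 hc0

theorem kl_nonneg (S : Finset (K → R)) (k : K) : 0 ≤ kl S k :=
  div_nonneg (sum_nonneg fun z _ => hh_nonneg (marg_nonneg S k z)) (Nat.cast_nonneg _)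

/-- The inequality of Gibbs. -/
theorem gibbs {P M : Type} [Fintype P] [DecidableEq P] [Fintype M] [Nonempty M] (X : P → M → ℝ)
    (B : P → ℝ) (hX : ∀ p, ∑ v, Real.exp (X p v) ≤ Fintype.card M * Real.exp (B p))
    (T : Finset (P → M)) (hT : T.Nonempty) :
    ∑ y ∈ T, ∑ p, X p (y p) ≤ T.card * (Real.log (1 / dens T) + ∑ p, B p) := by
  classical
  have hc0 : (0 : ℝ) < T.card := by exact_mod_cast hT.card_pos
  have hU0 : (0 : ℝ) < Fintype.card (P → M) := by exact_mod_cast Fintype.card_pos
  have hd0 : 0 < dens T := div_pos hc0 hU0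
  set c : ℝ := Real.log (1 / dens T) + ∑ p, B p with hc
  have h1 : ∀ y ∈ T, (∑ p, X p (y p)) - c ≤ Real.exp (-c) * Real.exp (∑ p, X p (y p)) - 1 := by
    intro y _
    have := Real.add_one_le_exp (-c + ∑ p, X p (y p))
    rw [Real.exp_add] at this
    linarith
  have h2 := sum_le_sum h1
  rw [sum_sub_distrib, sum_sub_distrib, sum_const, sum_const, nsmul_eq_mul, nsmul_eq_mul, mul_one,
    ← mul_sum] at h2
  have h3 : ∑ y ∈ T, Real.exp (∑ p, X p (y p)) ≤ Fintype.card (P → M) * Real.exp (∑ p, B p) := by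
    calc ∑ y ∈ T, Real.exp (∑ p, X p (y p)) ≤ ∑ y : P → M, Real.exp (∑ p, X p (y p)) :=
          sum_le_sum_of_subset_of_nonneg (subset_univ _) fun y _ _ => (Real.exp_pos _).le
      _ = ∏ p : P, ∑ v : M, Real.exp (X p v) := by
          rw [Fintype.prod_sum]
          exact sum_congr rfl fun y _ => Real.exp_sum _ _
      _ ≤ ∏ p : P, ((Fintype.card M : ℝ) * Real.exp (B p)) :=
          prod_le_prod (fun p _ => sum_nonneg fun v _ => (Real.exp_pos _).le) fun p _ => hX p
      _ = Fintype.card (P → M) * Real.exp (∑ p, B p) := by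
          rw [prod_mul_distrib, prod_const, card_univ, Real.exp_sum, Fintype.card_fun]
          push_cast
          rfl
  have h4 : Real.exp (-c) * ∑ y ∈ T, Real.exp (∑ p, X p (y p)) ≤ T.card := by
    calc Real.exp (-c) * ∑ y ∈ T, Real.exp (∑ p, X p (y p)) ≤
        Real.exp (-c) * (Fintype.card (P → M) * Real.exp (∑ p, B p)) :=
          mul_le_mul_of_nonneg_left h3 (Real.exp_pos _).le
      _ = T.card := by
          have e1 : Real.exp (-c) = dens T * Real.exp (-∑ p, B p) := by
            rw [hc, neg_add, Real.exp_add, one_div, Real.log_inv, neg_neg, Real.exp_log hd0]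
          rw [e1]
          have e2 : Real.exp (-∑ p, B p) * Real.exp (∑ p, B p) = 1 := by
            rw [← Real.exp_add, neg_add_cancel, Real.exp_zero]
          calc dens T * Real.exp (-∑ p, B p) * (Fintype.card (P → M) * Real.exp (∑ p, B p)) =
              dens T * Fintype.card (P → M) * (Real.exp (-∑ p, B p) * Real.exp (∑ p, B p)) := by ring
            _ = T.card := by rw [e2, mul_one]; unfold dens; field_simp
  linarith

end Pool.Agent.Helper53.R4
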