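import Mathlib
import Pool.Agent.Helper53.R4.Marg

/-!
# Planting does not make a rectangle much less probable
-/

set_option autoImplicit false

namespace Pool.Agent.Helper53.R4

open Finset Pool.Agent.Helper5.RV

variable {J K R M : Type} [Fintype J] [DecidableEq J] [Fintype K] [DecidableEq K] [Fintype R]
  [Fintype M]

theorem planted_rect (π : J → M → R) (S : Finset (K → R)) (T : Finset (J × K → M))
    (hS : S.Nonempty) : planted π (fun u y => u ∈ S ∧ y ∈ T) =
      dens S * (∑ y ∈ T, ∑ p : J × K, marg S p.2 (π p.1 (y p))) /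
        (Fintype.card (J × K → M) * (Fintype.card J * Fintype.card K)) := by
  classical
  have h1 : ∑ u : K → R, ∑ y : J × K → M, ∑ p : J × K,
      ind (Function.update u p.2 (π p.1 (y p)) ∈ S ∧ y ∈ T) =
      S.card * ∑ y ∈ T, ∑ p : J × K, marg S p.2 (π p.1 (y p)) := by
    rw [sum_comm, mul_sum]
    have e1 : ∀ y : J × K → M, ∑ u : K → R, ∑ p : J × K,
        ind (Function.update u p.2 (π p.1 (y p)) ∈ S ∧ y ∈ T) =
        if y ∈ T then S.card * ∑ p : J × K, marg S p.2 (π p.1 (y p)) else 0 := by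
      intro y
      by_cases hy : y ∈ T
      · rw [if_pos hy, sum_comm, mul_sum]
        refine sum_congr rfl fun p _ => ?_
        rw [← sum_update_mem S hS]
        refine sum_congr rfl fun u _ => ?_
        by_cases h : Function.update u p.2 (π p.1 (y p)) ∈ S
        · rw [ind_of ⟨h, hy⟩, ind_of h]
        · rw [ind_of_not fun h' => h h'.1, ind_of_not h]
      · rw [if_neg hy]
        exact sum_eq_zero fun u _ => sum_eq_zero fun p _ => ind_of_not fun h => hy h.2
    simp_rw [e1]
    rw [sum_ite_mem, univ_inter]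
  unfold planted
  rw [h1]
  unfold dens
  rw [div_mul_eq_mul_div, div_div, mul_assoc (Fintype.card (K → R) : ℝ)]

theorem rectGood_of [Nonempty J] [Nonempty K] [Nonempty R] [Nonempty M] (π : J → M → R)
    (e0 c1 c2 : ℝ)
    (h : ∀ (S : Finset (K → R)) (T : Finset (J × K → M)), S.Nonempty → T.Nonempty →
      T.card * ((Fintype.card J * Fintype.card K) *
        (1 - e0 - c1 * Real.log (1 / dens S) - c2 * Real.log (1 / dens T))) ≤
      ∑ y ∈ T, ∑ p : J × K, marg S p.2 (π p.1 (y p))) : RectGood J K π e0 c1 c2 := by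
  intro S T hS hT
  have hJ : (0 : ℝ) < Fintype.card J := by exact_mod_cast Fintype.card_pos
  have hK : (0 : ℝ) < Fintype.card K := by exact_mod_cast Fintype.card_pos
  have hY : (0 : ℝ) < Fintype.card (J × K → M) := by exact_mod_cast Fintype.card_pos
  rw [planted_rect π S T hS, le_div_iff₀ (by positivity)]
  have h1 := mul_le_mul_of_nonneg_left (h S T hS hT)
    (show 0 ≤ dens S from div_nonneg (Nat.cast_nonneg _) (Nat.cast_nonneg _))
  refine le_trans (le_of_eq ?_) h1
  have h2 : dens T * Fintype.card (J × K → M) = T.card := by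
    unfold dens
    field_simp
  calc _ = dens S * ((dens T * Fintype.card (J × K → M)) * ((Fintype.card J * Fintype.card K) *
        (1 - e0 - c1 * Real.log (1 / dens S) - c2 * Real.log (1 / dens T)))) := by ring
    _ = _ := by rw [h2]

theorem sum_inj {A B : Type} [Fintype A] [Fintype B] (f : A → B) (hf : Function.Injective f)
    (g : B → ℝ) (hg : ∀ b, 0 ≤ g b) : ∑ a, g (f a) ≤ ∑ b, g b := by
  classical
  rw [← sum_image (s := univ) (g := f) (fun a _ a' _ h => hf h)]
  exact sum_le_sum_of_subset_of_nonneg (subset_univ _) fun b _ _ => hg b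

theorem sum_inj_lower {A B : Type} [Fintype A] [Fintype B] (f : A → B)
    (hf : Function.Injective f) (g : B → ℝ) (hg : ∀ b, g b ≤ 1) :
    ∑ b, g b - (Fintype.card B - Fintype.card A) ≤ ∑ a, g (f a) := by
  have h := sum_inj f hf (fun b => 1 - g b) fun b => by linarith [hg b]
  rw [sum_sub_distrib, sum_sub_distrib, sum_const, sum_const, card_univ, card_univ, nsmul_eq_mul,
    nsmul_eq_mul, mul_one, mul_one] at h
  linarith

theorem dens_le_one {U : Type} [Fintype U] (S : Finset U) : dens S ≤ 1 := by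
  unfold dens
  rcases Nat.eq_zero_or_pos (Fintype.card U) with h | h
  · rw [h, Nat.cast_zero, div_zero]
    norm_num
  · rw [div_le_one (by exact_mod_cast h)]
    exact_mod_cast card_le_univ S

theorem dens_pos {U : Type} [Fintype U] (S : Finset U) (hS : S.Nonempty) : 0 < dens S := by
  unfold dens
  have h1 : 0 < S.card := hS.card_pos
  have h2 : S.card ≤ Fintype.card U := card_le_univ S
  have h3 : 0 < Fintype.card U := by omega
  have h1' : (0 : ℝ) < S.card := by exact_mod_cast h1
  have h3' : (0 : ℝ) < Fintype.card U := by exact_mod_cast h3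
  positivity

theorem log_dens_nonneg {U : Type} [Fintype U] (S : Finset U) (hS : S.Nonempty) :
    0 ≤ Real.log (1 / dens S) := by
  apply Real.log_nonneg
  rw [le_div_iff₀ (dens_pos S hS), one_mul]
  exact dens_le_one S

/-- small clerk messages: the price of Bob's bits is `1 / θ` -/
theorem rect_theta [Nonempty J] [Nonempty K] [Nonempty R] [Nonempty M] (π : J → M → R)
    (hπ : ∀ j, Function.Injective (π j)) (hRM : Fintype.card R ≤ 2 * Fintype.card M)
    (θ ε : ℝ) (hθ : 0 < θ) (hε : 0 < ε) :
    RectGood J K π ε (8 * Real.exp θ / (θ * ε ^ 2 * Fintype.card K))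
      (1 / (θ * (Fintype.card J * Fintype.card K))) := by
  classical
  refine rectGood_of π _ _ _ fun S T hS hT => ?_
  have hJ : (0 : ℝ) < Fintype.card J := by exact_mod_cast Fintype.card_pos
  have hK : (0 : ℝ) < Fintype.card K := by exact_mod_cast Fintype.card_pos
  have hM : (0 : ℝ) < Fintype.card M := by exact_mod_cast Fintype.card_pos
  have hR : (0 : ℝ) < Fintype.card R := by exact_mod_cast Fintype.card_pos
  have hRM' : (Fintype.card R : ℝ) ≤ 2 * Fintype.card M := by exact_mod_cast hRM
  have hε2 : 0 < ε ^ 2 := by positivity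
  have hexp := Real.exp_pos θ
  -- one cell
  have hcell : ∀ p : J × K, ∑ v, Real.exp (θ * gg (marg S p.2 (π p.1 v))) ≤
      Fintype.card M * Real.exp (θ * ε + 8 * Real.exp θ / ε ^ 2 * kl S p.2) := by
    intro p
    have e1 : ∀ v, Real.exp (θ * gg (marg S p.2 (π p.1 v))) ≤
        Real.exp (θ * ε) + Real.exp θ / ε ^ 2 * gg (marg S p.2 (π p.1 v)) ^ 2 := by
      intro v
      set g := gg (marg S p.2 (π p.1 v)) with hg
      have hg0 : 0 ≤ g := gg_nonneg _
      have hg1 : g ≤ 1 := gg_le_one (marg_nonneg _ _ _)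
      by_cases hh : g ≤ ε
      · have h1 : Real.exp (θ * g) ≤ Real.exp (θ * ε) :=
          Real.exp_le_exp.2 (mul_le_mul_of_nonneg_left hh hθ.le)
        have h2 : 0 ≤ Real.exp θ / ε ^ 2 * g ^ 2 := by positivity
        linarith
      · push Not at hh
        have h1 : Real.exp (θ * g) ≤ Real.exp θ := Real.exp_le_exp.2 (by nlinarith)
        have h2 : Real.exp θ ≤ Real.exp θ / ε ^ 2 * g ^ 2 := by
          rw [div_mul_eq_mul_div, le_div_iff₀ hε2]
          exact mul_le_mul_of_nonneg_left (pow_le_pow_left₀ hε.le hh.le 2) hexp.le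
        have h3 := Real.exp_pos (θ * ε)
        linarith
    have e2 : ∑ v, gg (marg S p.2 (π p.1 v)) ^ 2 ≤ 8 * Fintype.card M * kl S p.2 := by
      calc ∑ v, gg (marg S p.2 (π p.1 v)) ^ 2 ≤ ∑ z, gg (marg S p.2 z) ^ 2 :=
            sum_inj (π p.1) (hπ p.1) (fun z => gg (marg S p.2 z) ^ 2) fun z => sq_nonneg _
        _ ≤ ∑ z, 4 * hh (marg S p.2 z) := sum_le_sum fun z _ => gg_sq_le (marg_nonneg _ _ _)
        _ = 4 * (Fintype.card R * kl S p.2) := by
            rw [← mul_sum, kl]
            field_simp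
        _ ≤ 8 * Fintype.card M * kl S p.2 := by
            have := mul_le_mul_of_nonneg_right hRM' (kl_nonneg S p.2)
            linarith
    calc ∑ v, Real.exp (θ * gg (marg S p.2 (π p.1 v))) ≤
        ∑ v, (Real.exp (θ * ε) + Real.exp θ / ε ^ 2 * gg (marg S p.2 (π p.1 v)) ^ 2) :=
          sum_le_sum fun v _ => e1 v
      _ = Fintype.card M * Real.exp (θ * ε) +
          Real.exp θ / ε ^ 2 * ∑ v, gg (marg S p.2 (π p.1 v)) ^ 2 := by
          rw [sum_add_distrib, sum_const, card_univ, nsmul_eq_mul, mul_sum]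
      _ ≤ Fintype.card M * Real.exp (θ * ε) +
          Real.exp θ / ε ^ 2 * (8 * Fintype.card M * kl S p.2) := by
          have := mul_le_mul_of_nonneg_left e2 (show 0 ≤ Real.exp θ / ε ^ 2 by positivity)
          linarith
      _ = Fintype.card M * (Real.exp (θ * ε) + 8 * Real.exp θ / ε ^ 2 * kl S p.2) := by ring
      _ ≤ Fintype.card M * Real.exp (θ * ε + 8 * Real.exp θ / ε ^ 2 * kl S p.2) := by
          refine mul_le_mul_of_nonneg_left ?_ hM.le
          rw [Real.exp_add]
          have h1 : 0 ≤ 8 * Real.exp θ / ε ^ 2 * kl S p.2 := mul_nonneg (by positivity) (kl_nonneg _ _)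
          have h2 := Real.add_one_le_exp (8 * Real.exp θ / ε ^ 2 * kl S p.2)
          have h3 : 1 ≤ Real.exp (θ * ε) := Real.one_le_exp (by positivity)
          nlinarith
  have hG := gibbs (fun (p : J × K) v => θ * gg (marg S p.2 (π p.1 v)))
    (fun p => θ * ε + 8 * Real.exp θ / ε ^ 2 * kl S p.2) hcell T hT
  have hB : ∑ p : J × K, (θ * ε + 8 * Real.exp θ / ε ^ 2 * kl S p.2) =
      Fintype.card J * Fintype.card K * (θ * ε) +
        8 * Real.exp θ / ε ^ 2 * (Fintype.card J * ∑ k, kl S k) := by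
    rw [sum_add_distrib, sum_const, card_univ, Fintype.card_prod, nsmul_eq_mul, ← mul_sum,
      Fintype.sum_prod_type]
    push_cast
    rw [sum_const, card_univ, nsmul_eq_mul]
  rw [hB] at hG
  have hkl := sum_kl S hS
  have hT0 : (0 : ℝ) < T.card := by exact_mod_cast hT.card_pos
  set lS := Real.log (1 / dens S) with hlS
  set lT := Real.log (1 / dens T) with hlT
  set a : ℝ := (Fintype.card J : ℝ) with ha
  set b : ℝ := (Fintype.card K : ℝ) with hb
  have h1 : ∑ y ∈ T, ∑ p : J × K, θ * gg (marg S p.2 (π p.1 (y p))) ≤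
      T.card * (lT + (a * b * (θ * ε) + 8 * Real.exp θ / ε ^ 2 * (a * lS))) := by
    refine hG.trans (mul_le_mul_of_nonneg_left ?_ hT0.le)
    have h2 : 8 * Real.exp θ / ε ^ 2 * (a * ∑ k, kl S k) ≤ 8 * Real.exp θ / ε ^ 2 * (a * lS) :=
      mul_le_mul_of_nonneg_left (mul_le_mul_of_nonneg_left hkl hJ.le) (by positivity)
    linarith
  have h3 : ∑ y ∈ T, ∑ p : J × K, θ * gg (marg S p.2 (π p.1 (y p))) =
      θ * ∑ y ∈ T, ∑ p : J × K, gg (marg S p.2 (π p.1 (y p))) := by
    rw [mul_sum]
    exact sum_congr rfl fun y _ => by rw [mul_sum]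
  rw [h3] at h1
  have h4 : ∑ y ∈ T, ∑ p : J × K, (1 - gg (marg S p.2 (π p.1 (y p)))) ≤
      ∑ y ∈ T, ∑ p : J × K, marg S p.2 (π p.1 (y p)) :=
    sum_le_sum fun y _ => sum_le_sum fun p _ => one_sub_gg_le _
  refine le_trans ?_ h4
  simp_rw [sum_sub_distrib]
  rw [sum_const, sum_const, card_univ, Fintype.card_prod, nsmul_eq_mul, nsmul_eq_mul]
  push_cast
  rw [← ha, ← hb, mul_one]
  have h5 : ∑ y ∈ T, ∑ p : J × K, gg (marg S p.2 (π p.1 (y p))) ≤
      T.card * (lT + (a * b * (θ * ε) + 8 * Real.exp θ / ε ^ 2 * (a * lS))) / θ := by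
    rw [le_div_iff₀ hθ]
    linarith
  have h6 : (T.card : ℝ) * (lT + (a * b * (θ * ε) + 8 * Real.exp θ / ε ^ 2 * (a * lS))) / θ =
      T.card * (a * b * (ε + 8 * Real.exp θ / (θ * ε ^ 2 * b) * lS + 1 / (θ * (a * b)) * lT)) := by
    field_simp
    ring
  rw [h6] at h5
  linarith

/-- many clerk messages: the price of Bob's bits is `L` -/
theorem rect_big [Nonempty J] [Nonempty K] [Nonempty R] [Nonempty M] (π : J → M → R)
    (hπ : ∀ j, Function.Injective (π j)) (η L l : ℝ)
    (hη : (Fintype.card R : ℝ) ≤ (1 + η) * Fintype.card M) (hL : 0 < L) (hL1 : 1 < Real.log L)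
    (hl : 0 < l) (hl1 : l ≤ 1) :
    RectGood J K π (l / 2 + L * η) (1 / (Fintype.card K * (Real.log L - 1)))
      (L / (l * (Fintype.card J * Fintype.card K))) := by
  classical
  refine rectGood_of π _ _ _ fun S T hS hT => ?_
  have hJ : (0 : ℝ) < Fintype.card J := by exact_mod_cast Fintype.card_pos
  have hK : (0 : ℝ) < Fintype.card K := by exact_mod_cast Fintype.card_pos
  have hM : (0 : ℝ) < Fintype.card M := by exact_mod_cast Fintype.card_pos
  have hR : (0 : ℝ) < Fintype.card R := by exact_mod_cast Fintype.card_pos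
  have hMR : (Fintype.card M : ℝ) ≤ Fintype.card R := by
    exact_mod_cast Fintype.card_le_of_injective _ (hπ (Classical.arbitrary J))
  have hD : 0 < Real.log L - 1 := by linarith
  have hη0 : 0 ≤ η := by
    by_contra h
    push Not at h
    nlinarith
  set D := Real.log L - 1 with hDdef
  set q : K → R → ℝ := fun k z => min (marg S k z) L / L with hq
  have hq0 : ∀ k z, 0 ≤ q k z := fun k z => div_nonneg (le_min (marg_nonneg S k z) hL.le) hL.le
  have hq1 : ∀ k z, q k z ≤ 1 := fun k z => by
    rw [hq]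
    simp only
    rw [div_le_one hL]
    exact min_le_right _ _
  -- the mean of `q`
  have hqz : ∀ k, Fintype.card R * (1 / L * (1 - kl S k / D)) ≤ ∑ z, q k z := by
    intro k
    have e1 : ∀ z, marg S k z - hh (marg S k z) / D ≤ min (marg S k z) L := by
      intro z
      have h0 := hh_nonneg (marg_nonneg S k z)
      by_cases h : marg S k z ≤ L
      · rw [min_eq_left h]
        have : 0 ≤ hh (marg S k z) / D := div_nonneg h0 hD.le
        linarith
      · push Not at h
        rw [min_eq_right h.le]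
        have h1 := hh_big hL h
        have h2 : marg S k z ≤ hh (marg S k z) / D := by
          rw [le_div_iff₀ hD]
          exact h1
        linarith
    have e2 := sum_le_sum fun z (_ : z ∈ (univ : Finset R)) => e1 z
    rw [sum_sub_distrib, sum_marg S hS, ← sum_div] at e2
    have e3 : ∑ z, hh (marg S k z) = Fintype.card R * kl S k := by
      rw [kl]
      field_simp
    rw [e3] at e2
    have e4 : ∑ z, q k z = (∑ z, min (marg S k z) L) / L := by
      rw [hq]
      simp only
      rw [sum_div]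
    rw [e4, le_div_iff₀ hL]
    refine le_trans (le_of_eq ?_) e2
    field_simp
  have hqv : ∀ (j : J) (k : K), Fintype.card M * (1 / L * (1 - kl S k / D) - η) ≤
      ∑ v, q k (π j v) := by
    intro j k
    have e0 : 0 ≤ ∑ v, q k (π j v) := sum_nonneg fun v _ => hq0 _ _
    by_cases h : 0 ≤ 1 / L * (1 - kl S k / D)
    · have e1 := sum_inj_lower (π j) (hπ j) (q k) (hq1 k)
      have e2 := hqz k
      have e3 : Fintype.card M * (1 / L * (1 - kl S k / D)) ≤
          Fintype.card R * (1 / L * (1 - kl S k / D)) := mul_le_mul_of_nonneg_right hMR h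
      nlinarith
    · push Not at h
      have : Fintype.card M * (1 / L * (1 - kl S k / D) - η) ≤ 0 :=
        mul_nonpos_of_nonneg_of_nonpos hM.le (by linarith)
      linarith
  -- one cell
  set c : ℝ := l - l ^ 2 / 2 with hc
  have hc0 : 0 < c := by rw [hc]; nlinarith
  have hcell : ∀ p : J × K, ∑ v, Real.exp (-(l * q p.2 (π p.1 v))) ≤
      Fintype.card M * Real.exp (-(c * (1 / L * (1 - kl S p.2 / D) - η))) := by
    intro p
    have e1 : ∀ v, Real.exp (-(l * q p.2 (π p.1 v))) ≤ 1 - c * q p.2 (π p.1 v) := by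
      intro v
      set t := q p.2 (π p.1 v) with ht
      have ht0 : 0 ≤ t := hq0 _ _
      have ht1 : t ≤ 1 := hq1 _ _
      have h1 : Real.exp (-(l * t)) ≤ 1 - l * t + (l * t) ^ 2 / 2 := by
        have hx : 0 ≤ l * t := by positivity
        have h2 := Real.quadratic_le_exp_of_nonneg hx
        rw [Real.exp_neg, inv_le_comm₀ (Real.exp_pos _) (by nlinarith [sq_nonneg (1 - l * t)])]
        refine le_trans ?_ h2
        rw [inv_le_iff_one_le_mul₀ (by nlinarith [sq_nonneg (1 - l * t)])]
        nlinarith [pow_nonneg hx 4, pow_nonneg hx 3, pow_nonneg hx 2]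
      have h3 : (l * t) ^ 2 / 2 ≤ l ^ 2 / 2 * t := by
        have : t ^ 2 ≤ t := by nlinarith
        nlinarith [sq_nonneg l]
      rw [hc]
      nlinarith
    have e2 := sum_le_sum fun v (_ : v ∈ (univ : Finset M)) => e1 v
    rw [sum_sub_distrib, sum_const, card_univ, nsmul_eq_mul, mul_one, ← mul_sum] at e2
    have e3 := hqv p.1 p.2
    have e4 := Real.add_one_le_exp (-(c * (1 / L * (1 - kl S p.2 / D) - η)))
    have e5 := mul_le_mul_of_nonneg_left e4 hM.le
    have e6 := mul_le_mul_of_nonneg_left e3 hc0.le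
    calc _ ≤ _ := e2
      _ ≤ Fintype.card M * (-(c * (1 / L * (1 - kl S p.2 / D) - η)) + 1) := by linarith
      _ ≤ _ := e5
  have hG := gibbs (fun (p : J × K) v => -(l * q p.2 (π p.1 v)))
    (fun p => -(c * (1 / L * (1 - kl S p.2 / D) - η))) hcell T hT
  set kS := ∑ k, kl S k with hkS
  have hB : ∑ p : J × K, (-(c * (1 / L * (1 - kl S p.2 / D) - η))) =
      -(c * (Fintype.card J * Fintype.card K * (1 / L - η) - Fintype.card J * kS / (L * D))) := by
    rw [sum_neg_distrib, ← mul_sum, Fintype.sum_prod_type]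
    simp only
    rw [sum_const, card_univ, nsmul_eq_mul]
    congr 2
    have e1 : ∀ k, 1 / L * (1 - kl S k / D) - η = (1 / L - η) - kl S k / (L * D) := by
      intro k
      field_simp
      ring
    simp_rw [e1]
    rw [sum_sub_distrib, sum_const, card_univ, nsmul_eq_mul, ← sum_div, ← hkS]
    ring
  rw [hB] at hG
  have hkl : kS ≤ _ := sum_kl S hS
  have hT0 : (0 : ℝ) < T.card := by exact_mod_cast hT.card_pos
  have hlS0 := log_dens_nonneg S hS
  set lS := Real.log (1 / dens S) with hlS
  set lT := Real.log (1 / dens T) with hlT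
  set a : ℝ := (Fintype.card J : ℝ) with ha
  set b : ℝ := (Fintype.card K : ℝ) with hb
  set Q : ℝ := ∑ y ∈ T, ∑ p : J × K, q p.2 (π p.1 (y p)) with hQ
  have h3 : ∑ y ∈ T, ∑ p : J × K, -(l * q p.2 (π p.1 (y p))) = -(l * Q) := by
    rw [hQ, mul_sum, ← sum_neg_distrib]
    refine sum_congr rfl fun y _ => ?_
    rw [mul_sum, ← sum_neg_distrib]
  rw [h3] at hG
  have h4 : L * Q ≤ ∑ y ∈ T, ∑ p : J × K, marg S p.2 (π p.1 (y p)) := by
    rw [hQ, mul_sum]
    refine sum_le_sum fun y _ => ?_
    rw [mul_sum]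
    refine sum_le_sum fun p _ => ?_
    rw [hq]
    simp only
    rw [mul_div_cancel₀ _ hL.ne']
    exact min_le_left _ _
  refine le_trans ?_ h4
  -- `l Q ≥ |T| (c (..) - lT)`
  have h5 : (T.card : ℝ) * (c * (a * b * (1 / L - η) - a * lS / (L * D)) - lT) ≤ l * Q := by
    have h6 : a * kS / (L * D) ≤ a * lS / (L * D) :=
      div_le_div_of_nonneg_right (mul_le_mul_of_nonneg_left hkl hJ.le) (by positivity)
    have h7 : (T.card : ℝ) * (c * (a * b * (1 / L - η) - a * lS / (L * D)) - lT) ≤
        T.card * (c * (a * b * (1 / L - η) - a * kS / (L * D)) - lT) := by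
      refine mul_le_mul_of_nonneg_left ?_ hT0.le
      have := mul_le_mul_of_nonneg_left h6 hc0.le
      linarith
    linarith
  have h8 : (T.card : ℝ) * (c * (a * b * (1 / L - η) - a * lS / (L * D)) - lT) * (L / l) ≤ L * Q := by
    have := mul_le_mul_of_nonneg_right h5 (show 0 ≤ L / l by positivity)
    calc _ ≤ _ := this
      _ = L * Q := by field_simp
  refine le_trans ?_ h8
  have h9 : (T.card : ℝ) * (c * (a * b * (1 / L - η) - a * lS / (L * D)) - lT) * (L / l) =
      T.card * (a * b * ((1 - l / 2) * (1 - L * η) - (1 - l / 2) * (lS / (b * D)) -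
        L / (l * (a * b)) * lT)) := by
    rw [hc]
    field_simp
  rw [h9]
  refine mul_le_mul_of_nonneg_left (mul_le_mul_of_nonneg_left ?_ (by positivity)) hT0.le
  have h10 : 0 ≤ lS / (b * D) := div_nonneg hlS0 (by positivity)
  have h11 : 1 / (b * D) * lS = lS / (b * D) := by ring
  rw [h11]
  have h12 : 0 ≤ L * η := by positivity
  nlinarith

end Pool.Agent.Helper53.R4
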